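import Pool.Agent.Helper32_ND.Stmts

set_option autoImplicit false
set_option linter.unusedVariables false

/-!
MODULE F1: if the value is not a root, then the property `P(B, s m + e_B)` holds.
-/

namespace Pool.Agent.ND.H91

open Finset

/-- the functionals -/
abbrev HH (n : ℕ) : Type := MvPolynomial (Fin n) ℂ →ₗ[ℂ] K0

/-- multiplication on the functionals -/
noncomputable def mulE (n : ℕ) (p : MvPolynomial (Fin n) ℂ) : Module.End E0 (HH n) where
  toFun ξ := ξ.comp (LinearMap.mulLeft ℂ p)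
  map_add' ξ η := by ext q; simp
  map_smul' c ξ := by ext q; simp

@[simp] lemma mulE_apply (n : ℕ) (p : MvPolynomial (Fin n) ℂ) (ξ : HH n) (q : MvPolynomial (Fin n) ℂ) :
    mulE n p ξ q = ξ (p * q) := rfl

/-- the action of the polynomials -/
noncomputable def act (n : ℕ) : MvPolynomial (Fin n) ℂ →ₐ[ℂ] Module.End E0 (HH n) where
  toFun := mulE n
  map_one' := by
    refine LinearMap.ext fun ξ => LinearMap.ext fun q => ?_
    rw [mulE_apply, one_mul]; rfl
  map_mul' p q := by
    refine LinearMap.ext fun ξ => LinearMap.ext fun r => ?_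
    rw [mulE_apply, Module.End.mul_apply, mulE_apply, mulE_apply]
    congr 1
    ring
  map_zero' := by
    refine LinearMap.ext fun ξ => LinearMap.ext fun q => ?_
    rw [mulE_apply, zero_mul, map_zero]; rfl
  map_add' p q := by
    refine LinearMap.ext fun ξ => LinearMap.ext fun r => ?_
    rw [mulE_apply, add_mul, map_add]; rfl
  commutes' c := by
    refine LinearMap.ext fun ξ => LinearMap.ext fun q => ?_
    rw [mulE_apply, MvPolynomial.algebraMap_eq, ← MvPolynomial.smul_eq_C_mul, map_smul]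
    rfl

lemma act_apply (n : ℕ) (p : MvPolynomial (Fin n) ℂ) (ξ : HH n) (q : MvPolynomial (Fin n) ℂ) :
    act n p ξ q = ξ (p * q) := rfl

/-- the derivatives -/
noncomputable def DD (n : ℕ) (l0 : Fin n → ℂ) (p : Fin n) : Module.End E0 (HH n) where
  toFun ξ := l0 p • ξ - ξ.comp ((MvPolynomial.pderiv p : Derivation ℂ (MvPolynomial (Fin n) ℂ) _) :
    MvPolynomial (Fin n) ℂ →ₗ[ℂ] MvPolynomial (Fin n) ℂ)
  map_add' ξ η := by
    ext q
    simp
    ring
  map_smul' c ξ := by
    refine LinearMap.ext fun q => ?_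
    simp only [LinearMap.sub_apply, LinearMap.smul_apply, LinearMap.comp_apply, RingHom.id_apply,
      smul_sub]
    rw [smul_comm]

lemma DD_apply (n : ℕ) (l0 : Fin n → ℂ) (p : Fin n) (ξ : HH n) (q : MvPolynomial (Fin n) ℂ) :
    DD n l0 p ξ q = algebraMap ℂ K0 (l0 p) * ξ q - ξ (MvPolynomial.pderiv p q) := by
  show l0 p • ξ q - ξ (MvPolynomial.pderiv p q) = _
  rw [Algebra.smul_def]

/-- the integral functionals -/
noncomputable def NN (n : ℕ) : Submodule E0 (HH n) where
  carrier := {ξ | ∀ q, ξ q ∈ O0}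
  add_mem' {ξ η} h1 h2 q := O0.add_mem (h1 q) (h2 q)
  zero_mem' q := O0.zero_mem
  smul_mem' c ξ h q := by
    show c • ξ q ∈ O0
    rw [Algebra.smul_def]
    exact O0.mul_mem ⟨c, rfl⟩ (h q)

lemma mem_NN (n : ℕ) (ξ : HH n) : ξ ∈ NN n ↔ ∀ q, ξ q ∈ O0 := Iff.rfl

lemma lin_hom {n : ℕ} (v : Fin n → ℂ) : (lin v).IsHomogeneous 1 := by
  unfold lin
  apply MvPolynomial.IsHomogeneous.sum
  intro p _
  have := (MvPolynomial.isHomogeneous_C (Fin n) (v p)).mul (MvPolynomial.isHomogeneous_X ℂ p)
  rwa [zero_add] at this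

lemma fW_hom {ι : Type} [Fintype ι] {n : ℕ} (L : ι → Fin n → ℂ) (m : ι → ℕ) :
    (fW L m).IsHomogeneous (∑ i, m i) := by
  unfold fW
  apply MvPolynomial.IsHomogeneous.prod
  intro i _
  have := (lin_hom (L i)).pow (m i)
  rwa [one_mul] at this

lemma lin_single {n : ℕ} (p : Fin n) : lin (Pi.single p 1 : Fin n → ℂ) = MvPolynomial.X p := by
  unfold lin
  rw [Finset.sum_eq_single p]
  · simp
  · intro q _ hq
    rw [Pi.single_eq_of_ne hq]
    simp
  · intro h
    exact absurd (Finset.mem_univ p) h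

lemma algC (c : ℂ) : algebraMap ℂ K0 c = algebraMap E0 K0 (PowerSeries.C c) := by
  rw [IsScalarTower.algebraMap_apply ℂ E0 K0]
  rfl

lemma natK (n : ℕ) : (n : K0) = algebraMap E0 K0 (PowerSeries.C (n : ℂ)) := by
  rw [← algC, map_natCast]

/-- a power series with nonzero constant coefficient has an integral inverse -/
lemma inv_mem (x : E0) (h : PowerSeries.constantCoeff x ≠ 0) : (algebraMap E0 K0 x)⁻¹ ∈ O0 := by
  have hu : IsUnit x := by
    rw [PowerSeries.isUnit_iff_constantCoeff]
    exact isUnit_iff_ne_zero.2 h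
  obtain ⟨u, rfl⟩ := hu
  refine ⟨((u⁻¹ : E0ˣ) : E0), ?_⟩
  have h1 : algebraMap E0 K0 (u : E0) * algebraMap E0 K0 ((u⁻¹ : E0ˣ) : E0) = 1 := by
    rw [← map_mul, Units.mul_inv, map_one]
  exact (eq_inv_of_mul_eq_one_right h1)

/-- MODULE F1 -/
theorem f1 (hCHN : ChnStmt) (hFAM : FamStmt) (hLOC : LocStmt) (hRLOC : RlocStmt) (hVAL : ValStmt) :
    F1Stmt := by
  intro ι _ _ M A P B hB m hm hd κ _ g hg β hβ hne
  obtain ⟨hC, ht0, -⟩ := hVAL
  set sE : E0 := PowerSeries.C β + PowerSeries.X with hsE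
  set s : K0 := algebraMap ℂ K0 β + t0 with hs
  have hss : s = algebraMap E0 K0 sE := by
    rw [hs, hsE, map_add, algC]
    rfl
  have hsO : s ∈ O0 := O0.add_mem (hC β) ht0
  have hinj : Function.Injective (algebraMap E0 K0) := IsFractionRing.injective E0 K0
  have hmpos : ∀ X : Finset ι, X.Nonempty → 0 < ∑ i ∈ X, m i := fun X hX =>
    Finset.sum_pos (fun i _ => hm i) hX
  -- the sums
  have hsum : ∀ (c : ℂ) (κ : ι → ℕ) (X : Finset ι),
      ∑ i ∈ X, ((s + algebraMap ℂ K0 c) * (m i : K0) + (κ i : K0)) =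
        algebraMap E0 K0 (PowerSeries.C ((β + c) * ((∑ i ∈ X, m i : ℕ) : ℂ) + ((∑ i ∈ X, κ i : ℕ) : ℂ)) +
          PowerSeries.C ((∑ i ∈ X, m i : ℕ) : ℂ) * PowerSeries.X) := by
    intro c κ X
    rw [Finset.sum_add_distrib, ← Finset.mul_sum, ← Nat.cast_sum, ← Nat.cast_sum, hs]
    simp only [map_add, map_mul, ← algC]
    rw [map_natCast, map_natCast]
    show (algebraMap ℂ K0 β + t0 + algebraMap ℂ K0 c) * _ + _ = _ + _ * t0
    ring
  have hNR : ∀ (k : ℕ) (κ : ι → ℕ), NR fun i => (s - (k : K0)) * (m i : K0) + (κ i : K0) := by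
    intro k κ X hX h0
    have h1 := hsum (-(k : ℂ)) κ X
    have h2 : s + algebraMap ℂ K0 (-(k : ℂ)) = s - (k : K0) := by
      rw [map_neg, map_natCast]; ring
    rw [h2, h0] at h1
    have h3 := hinj ((map_zero (algebraMap E0 K0)).trans h1)
    have h4 := congrArg (PowerSeries.coeff 1) h3
    rw [map_zero, map_add, PowerSeries.coeff_C, if_neg one_ne_zero, zero_add,
      PowerSeries.coeff_C_mul, PowerSeries.coeff_one_X, mul_one] at h4
    have h5 := hmpos X hX
    have h6 : ((∑ i ∈ X, m i : ℕ) : ℂ) ≠ 0 := by exact_mod_cast h5.ne'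
    exact h6 h4.symm
  intro y hy
  obtain ⟨t, ξ, hfam, hty, hξ0, hξ1, hξ2⟩ := hCHN ι M A P K0 B hB m hm s hNR y
  have hRl := hRLOC ι (M + 2) A K0
  have hR3 := hRl.2.2.1
  have hF3 := (hFAM ι M A P K0 (fun i => s * (m i : K0))).2.2 O0 hC
    (fun i => O0.mul_mem hsO (natCast_mem O0 (m i))) t hfam (cnt B) (by rw [hty]; exact hy)
  have heB : e A K0 B ∈ Lat A O0 (M + 2) := Submodule.subset_span ⟨B, rfl⟩
  -- the real part of one plus `β`
  have hdpos : (0 : ℝ) < ((∑ i, m i : ℕ) : ℝ) := by
    have : 0 < ∑ i, m i := by omega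
    exact_mod_cast this
  have hβre : (1 + β).re > 0 := by
    have h1 := congrArg Complex.re hβ
    rw [Complex.mul_re, Complex.natCast_re, Complex.natCast_im, mul_zero, sub_zero, Complex.neg_re,
      Complex.natCast_re] at h1
    rw [Complex.add_re, Complex.one_re]
    have h2 : ((M + 2 : ℕ) : ℝ) < ((∑ i, m i : ℕ) : ℝ) := by exact_mod_cast hd
    by_contra h3
    have h4 : β.re ≤ -1 := by linarith
    nlinarith
  -- integrality of f times the first functional
  have hint : ∀ κ : ι → ℕ, ξ 0 (fW A.L m * ∏ i, lin (A.L i) ^ κ i) ∈ O0 := by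
    intro κ
    have h1 : fW A.L m * ∏ i, lin (A.L i) ^ κ i = ∏ i, lin (A.L i) ^ ((m + κ) i) := by
      unfold fW
      rw [← Finset.prod_mul_distrib]
      exact Finset.prod_congr rfl fun i _ => by rw [Pi.add_apply, pow_add]
    rw [h1, hξ0 (m + κ)]
    unfold phi
    apply hR3 _ O0 _ (M + 2) _ heB
    · have h2 := hF3 (m + κ)
      rwa [add_comm (cnt B) (m + κ)] at h2
    · intro X hX
      have h2 := hsum 1 (κ + cnt B) X
      have h3 : ∑ i ∈ X, (s * (m i : K0) + ((m + κ) i : K0) + (cnt B i : K0)) =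
          ∑ i ∈ X, ((s + algebraMap ℂ K0 1) * (m i : K0) + ((κ + cnt B) i : K0)) := by
        refine Finset.sum_congr rfl fun i _ => ?_
        rw [map_one, Pi.add_apply, Pi.add_apply]
        push_cast
        ring
      have h4 : (∑ i ∈ X, (s * (m i : K0) + ((m + κ : ι → ℕ) i : K0) + (cnt B i : K0)))⁻¹ ∈ O0 := by
        rw [h3, h2]
        apply inv_mem
        rw [map_add, map_mul, PowerSeries.constantCoeff_C, PowerSeries.constantCoeff_X, mul_zero,
          add_zero]
        intro h5
        have h6 := congrArg Complex.re h5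
        rw [Complex.add_re, Complex.mul_re, Complex.natCast_re, Complex.natCast_im, mul_zero,
          sub_zero, Complex.natCast_re, Complex.zero_re] at h6
        have h7 : (0 : ℝ) < ((∑ i ∈ X, m i : ℕ) : ℝ) := by exact_mod_cast hmpos X hX
        have h8 : (0 : ℝ) ≤ ((∑ i ∈ X, (κ + cnt B) i : ℕ) : ℝ) := Nat.cast_nonneg _
        rw [add_comm] at hβre
        nlinarith [mul_pos hβre h7]
      convert h4 using 3
  have hint2 : ∀ q, ξ 0 (fW A.L m * q) ∈ O0 := by
    intro q
    induction q using MvPolynomial.induction_on' with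
    | monomial a c =>
      have h1 : MvPolynomial.monomial a c =
          c • ∏ i, lin (A.L i) ^ ((∑ p, a p • (Pi.single (B p) 1 : ι → ℕ)) i) := by
        have h2 : ∏ i, lin (A.L i) ^ ((∑ p, a p • (Pi.single (B p) 1 : ι → ℕ)) i) =
            ∏ p, (MvPolynomial.X p : MvPolynomial (Fin (M + 2)) ℂ) ^ a p := by
          have h3 : ∀ i, lin (A.L i) ^ ((∑ p, a p • (Pi.single (B p) 1 : ι → ℕ)) i) =
              ∏ p, lin (A.L i) ^ (a p * (Pi.single (B p) 1 : ι → ℕ) i) := by
            intro i
            rw [Finset.sum_apply, ← Finset.prod_pow_eq_pow_sum]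
            exact Finset.prod_congr rfl fun p _ => by simp
          rw [Finset.prod_congr rfl fun i _ => h3 i, Finset.prod_comm]
          refine Finset.prod_congr rfl fun p _ => ?_
          rw [Finset.prod_eq_single (B p)]
          · rw [Pi.single_eq_same, mul_one, hB p, lin_single]
          · intro i _ hi
            rw [Pi.single_eq_of_ne hi, mul_zero, pow_zero]
          · intro h
            exact absurd (Finset.mem_univ _) h
        rw [h2, MvPolynomial.monomial_eq, Finsupp.prod_fintype _ _ (fun i => pow_zero _),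
          MvPolynomial.smul_eq_C_mul]
      rw [h1, mul_smul_comm, map_smul, Algebra.smul_def]
      exact O0.mul_mem (hC c) (hint _)
    | add p q hp hq =>
      rw [mul_add, map_add]
      exact O0.add_mem hp hq
  -- apply LOC
  have hloc := hLOC (M + 2) κ E0 (HH (M + 2)) (fW A.L m) (∑ i, m i) (fW_hom A.L m) g hg sE
    (act (M + 2)) (DD (M + 2) P.l0) ?_ ξ ?_ ?_ (NN (M + 2)) ?_ ?_ ?_
  · -- conclusion
    set b := Helper6_Mono.bfun (MvPolynomial.rename Sum.inl (fW A.L m) * g) with hb
    have hcc : PowerSeries.constantCoeff (Polynomial.aeval sE b) = b.eval β := by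
      have h1 : PowerSeries.constantCoeff (Polynomial.aeval sE b) =
          Polynomial.eval₂ ((PowerSeries.constantCoeff (R := ℂ)).comp (algebraMap ℂ E0))
            (PowerSeries.constantCoeff sE) b := by
        rw [Polynomial.aeval_def, Polynomial.hom_eval₂]
      have h2 : (PowerSeries.constantCoeff (R := ℂ)).comp (algebraMap ℂ E0) = RingHom.id ℂ := by
        ext c
        show PowerSeries.constantCoeff (PowerSeries.C c) = c
        exact PowerSeries.constantCoeff_C c
      have h3 : PowerSeries.constantCoeff sE = β := by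
        rw [hsE, map_add, PowerSeries.constantCoeff_C, PowerSeries.constantCoeff_X, add_zero]
      rw [h1, h2, h3]
      rfl
    have hu : IsUnit (Polynomial.aeval sE b) := by
      rw [PowerSeries.isUnit_iff_constantCoeff, hcc]
      exact isUnit_iff_ne_zero.2 hne
    obtain ⟨u, hu⟩ := hu
    have h1 : ξ 0 ∈ NN (M + 2) := by
      have h2 := (NN (M + 2)).smul_mem ((u⁻¹ : E0ˣ) : E0) hloc
      rw [← hu, smul_smul, Units.inv_mul, one_smul] at h2
      exact h2
    have h2 := h1 (∏ i, lin (A.L i) ^ ((0 : ι → ℕ) i))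
    rw [hξ0 0] at h2
    unfold phi at h2
    rw [zero_add, hty] at h2
    have hρ : (fun i => s * (m i : K0) + (cnt B i : K0)) =
        (fun i => s * (m i : K0) + (((0 : ι → ℕ) i : ℕ) : K0) + (cnt B i : K0)) := by
      funext i
      rw [Pi.zero_apply, Nat.cast_zero, add_zero]
    rw [hρ]
    exact h2
  · intro i j b
    refine LinearMap.ext fun q => ?_
    rw [DD_apply, act_apply, act_apply, LinearMap.add_apply, act_apply, act_apply, DD_apply,
      Derivation.leibniz, smul_eq_mul, smul_eq_mul, map_add, mul_comm q]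
    ring
  · intro k
    refine LinearMap.ext fun q => ?_
    rw [act_apply]
    exact hξ1 k q
  · intro i k
    refine LinearMap.ext fun q => ?_
    rw [DD_apply]
    show _ = (sE - (k : E0)) • ξ (k + 1) (MvPolynomial.pderiv i (fW A.L m) * q)
    rw [hξ2 k i q, Algebra.smul_def, map_sub, map_natCast, hss]
  · intro i b hb q
    rw [act_apply]
    exact hb _
  · intro i b hb q
    rw [DD_apply]
    exact O0.sub_mem (O0.mul_mem (hC _) (hb _)) (hb _)
  · intro q
    rw [act_apply]
    exact hint2 q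

end Pool.Agent.ND.H91
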